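import Pool.Agent.H65.Kn.Meas

/-!
# Keane's 0, 1, 3 problem just below 2/5

For every `δ > 0` there is `ε > 0` such that for every ratio `t` in `(2/5 - ε, 2/5)` the interior of
the set of sums `Σ d_k t^k` (`k ≥ 1`, digits `0, 1, 3`) has Lebesgue measure more than `2 - δ`.
-/

set_option autoImplicit false

namespace Pool.Agent.Results.MP_7aacdb_an.LargeNearTwoFifths

open MeasureTheory Pool.Agent.H65.Kn

theorem result :
    ∀ δ : ℝ, 0 < δ → ∃ ε : ℝ, 0 < ε ∧ ∀ t : ℝ, 2 / 5 - ε < t → t < 2 / 5 →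
      ENNReal.ofReal (2 - δ) < volume (interior (Lam t)) := by
  intro δ hδ
  have h1 : ENNReal.ofReal (1500 * (2 - δ)) < volume (Hit (Ow tbl) (2 / 5)) := by
    refine lt_of_lt_of_le ?_ hit_vol
    rw [ENNReal.ofReal_lt_ofReal_iff (by norm_num)]
    linarith
  have hop : IsOpen (Hit (Ow tbl) (2 / 5)) := hit_slice_open (ow_open tbl) (by norm_num)
  obtain ⟨C, hC1, hC2, hC3⟩ := hop.exists_lt_isCompact h1
  have hK : Kc ⊆ Hit (Ow tbl) (2 / 5) := fun X hX => (hit_two_fifths tbl X).2 (kc_good X hX)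
  obtain ⟨ε, hε, h2⟩ := hit_tube (ow_open tbl) (by norm_num : (0 : ℝ) < 2 / 5)
    (kc_compact.union hC2) (Set.union_subset hK hC1)
  refine ⟨ε, hε, fun t ht1 ht2 => ?_⟩
  obtain ⟨h3, h4⟩ := h2 t (by rw [abs_lt]; constructor <;> linarith)
  have hO : Ow tbl ⊆ Hit (Ow tbl) t := fun X hX => h4 (Or.inl (ow_kc hX))
  have hO1 : ∀ X ∈ Ow tbl, |X| ≤ 3000 := by
    intro X hX
    have := kc_mem (ow_kc hX)
    rw [abs_le]
    constructor <;> linarith [this.1, this.2]
  have hsub : (fun x : ℝ => 1500 * x) ⁻¹' Hit (Ow tbl) t ⊆ interior (Lam t) := by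
    refine interior_maximal ?_ ((hit_slice_open (ow_open tbl) h3).preimage (by fun_prop))
    intro x hx
    have h5 := hit_lam hO1 h3 (by linarith) hO hx
    have h6 : 1500 * x / 1500 = x := by ring
    rwa [h6] at h5
  refine lt_of_lt_of_le ?_ (measure_mono hsub)
  rw [Real.volume_preimage_mul_left (by norm_num)]
  have h7 : volume C ≤ volume (Hit (Ow tbl) t) := measure_mono fun X hX => h4 (Or.inr hX)
  have h8 : ENNReal.ofReal (2 - δ)
      = ENNReal.ofReal |(1500 : ℝ)⁻¹| * ENNReal.ofReal (1500 * (2 - δ)) := by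
    rw [← ENNReal.ofReal_mul (abs_nonneg _), abs_of_pos (by norm_num)]
    congr 1
    ring
  rw [h8]
  refine ENNReal.mul_lt_mul_right (by simp) ENNReal.ofReal_ne_top (lt_of_lt_of_le hC3 h7)

end Pool.Agent.Results.MP_7aacdb_an.LargeNearTwoFifths
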